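import Pool.Agent.BEL.StmtsE

/-!
# Squad BEL (MP_be01ff_an), rows FLP and NEB (helper81)
-/

set_option autoImplicit false

namespace Pool.Agent.BEL.H81

open MeasureTheory Filter Topology Set Pool.Agent.BEL
open scoped InnerProductSpace ENNReal NNReal

noncomputable section

/-- row FLP -/
theorem flp (grq : GrqStmt) (eng : EngStmt) : FlpStmt := by
  intro H _ _ _ κ b om W F K hW hF hmon hF0 V V' Z Z' hZ hZ'
  obtain ⟨-, -, -, -, -, q6, -, -⟩ := grq H κ b om W hW
  have key : ∀ (V : KK H) (Z : ℝ → KK H), IsFl W F V Z →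
      (Continuous fun t => P2 (W t (Z t))) ∧ (Continuous fun t => F (P2 (W t (Z t)))) := by
    intro V Z hZ
    have h1 : Continuous Z := continuous_iff_continuousAt.2 fun t => (hZ.eq t).continuousAt
    have h2 : Continuous fun t => P2 (W t (Z t)) := P2.continuous.comp (q6 Z h1)
    exact ⟨h2, hF.continuous.comp h2⟩
  obtain ⟨k1, k2⟩ := key V Z hZ
  obtain ⟨k1', k2'⟩ := key V' Z' hZ'
  have hpos : ∀ x, 0 ≤ ⟪F x, x⟫_ℝ := by
    intro x
    have := hmon x 0
    rwa [hF0, sub_zero, sub_zero] at this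
  have e1 := (eng H κ b om W Z (fun t => F (P2 (W t (Z t)))) hW k2 hZ.eq).2
  have hle : ∀ u v : ℝ, 0 ≤ u → 0 ≤ v → u ^ 2 ≤ v ^ 2 → u ≤ v := fun u v hu hv h =>
    (sq_le_sq₀ hu hv).1 h
  refine ⟨k1, k2, ?_, ?_, ?_⟩
  · intro s t hst
    apply hle _ _ (norm_nonneg _) (norm_nonneg _)
    have h1 := e1 s t
    have h2 : 0 ≤ ∫ r in s..t, ⟪F (P2 (W r (Z r))), P2 (W r (Z r))⟫_ℝ :=
      intervalIntegral.integral_nonneg hst fun r _ => hpos _
    linarith
  · intro s t hst
    apply hle _ _ (norm_nonneg _) (norm_nonneg _)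
    have hD : ∀ t, HasDerivAt (fun t => Z t - Z' t)
        (-(W (-t) (inj ((fun t => F (P2 (W t (Z t))) - F (P2 (W t (Z' t)))) t)))) t := by
      intro t
      have h1 := (hZ.eq t).sub (hZ'.eq t)
      have h2 : -(W (-t) (inj ((fun t => F (P2 (W t (Z t))) - F (P2 (W t (Z' t)))) t))) =
          -(W (-t) (inj (F (P2 (W t (Z t)))))) - -(W (-t) (inj (F (P2 (W t (Z' t)))))) := by
        simp only [map_sub]
        abel
      rw [h2]
      exact h1
    have e2 := (eng H κ b om W (fun t => Z t - Z' t)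
      (fun t => F (P2 (W t (Z t))) - F (P2 (W t (Z' t)))) hW (k2.sub k2') hD).2 s t
    have h2 : 0 ≤ ∫ r in s..t, ⟪F (P2 (W r (Z r))) - F (P2 (W r (Z' r))),
        P2 (W r (Z r - Z' r))⟫_ℝ := by
      refine intervalIntegral.integral_nonneg hst fun r _ => ?_
      rw [map_sub, map_sub]
      exact hmon _ _
    linarith
  · intro s t
    have h1 := e1 s t
    linarith

/-- row NEB -/
theorem neb (nem' : NemStmt) (glp : GlpStmt) : NebStmt := by
  intro X _ μ a al B l v ha hal hB hl hv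
  obtain ⟨-, g2, -, g4, -, -, g7, -, -⟩ := glp a al ha hal
  obtain ⟨n1, -⟩ := nem' X μ (gl a al l) _ (g2 l hl) (g4 l)
  apply Lp.norm_le_mul_norm_of_ae_le_mul
  filter_upwards [n1 v, hv] with x h1 h2
  rw [h1, Real.norm_eq_abs, Real.norm_eq_abs]
  refine (g7 l (v x) hl).trans ?_
  unfold gf
  rw [abs_mul, abs_mul, abs_of_pos ha, abs_of_nonneg (Real.rpow_nonneg (abs_nonneg _) _)]
  gcongr

end

end Pool.Agent.BEL.H81
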